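import Pool.Agent.Work.MP_c1fc37_lc.Strat

universe u

namespace Pool.Agent.Work.MP_c1fc37_lc.Parked.StrategicClosure

open Cardinal Pool.Agent.Work.MP_c1fc37_lc

/-- For an uncountable successor cardinal `κ = μ⁺` no tree forcing on `2^{<κ}` is simultaneously
`<κ`-closed (or only `<κ`-strategically closed), `κ^κ`-bounding and `κ⁺`-cc. -/
theorem result (μ : Cardinal.{u}) (hμ : ℵ₀ ≤ μ) :
    ¬ ∃ P : Set (Set (Node (Order.succ μ))),
      IsTreeForcing P ∧ (IsLtClosed P ∨ IsLtStratClosed P) ∧ IsBounding P ∧ IsSuccCC P := by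
  rintro ⟨P, hP, hc, hb, hcc⟩
  exact St.not_bounding hμ rfl hP (hc.elim St.strat_of_closed id) hcc hb

end Pool.Agent.Work.MP_c1fc37_lc.Parked.StrategicClosure
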